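import Pool.Agent.Lib.MP_cfac74_al.Tab.Plane

/-!
# MP_cfac74_al : geometry 6 (data)
-/

set_option autoImplicit false

namespace Pool.Agent.Lib.MP_cfac74_al.Tab

/-- matrix of the first form -/
def A6L : List (List ℕ) :=
  [[0, 0, 2, 1, 1, 2], [0, 0, 2, 1, 1, 2], [1, 1, 0, 2, 1, 1], [2, 2, 1, 0, 0, 0], [2, 2, 2, 0, 0, 1], [1, 1, 2, 0, 2, 0]]

/-- matrix of the second form -/
def B6L : List (List ℕ) :=
  [[0, 1, 0, 2, 0, 0], [2, 0, 2, 2, 2, 2], [0, 1, 0, 2, 2, 0], [1, 1, 1, 0, 2, 1], [0, 1, 1, 1, 0, 2], [0, 1, 0, 2, 1, 0]]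

/-- the first form -/
def A6 (i j : Fin 6) : ZMod 3 := (((A6L.getD i []).getD j 0 : ℕ) : ZMod 3)

/-- the second form -/
def B6 (i j : Fin 6) : ZMod 3 := (((B6L.getD i []).getD j 0 : ℕ) : ZMod 3)

/-- row codes -/
def R6 : List ℕ × List ℕ × List ℕ × List ℕ :=
  ([2099233, 33556546, 1090, 34668577, 68192256, 68192256],
   [1114144, 67142688, 35652641, 2162720, 69273602, 65568],
   [67649, 32770, 35653632, 33587265, 33555458, 68159520],
   [1083393, 67175458, 68157473, 35651585, 2162689, 68225088])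

/-- packed variables -/
def Z6 : List ℕ := [nat_lit 0x10000000000, nat_lit 0x100000000000000000000, nat_lit 0x10000000000000000000000000000000000000000, nat_lit 0x100000000000000000000000000000000000000000000000000000000000000000000000000000000, nat_lit 0x10000000000000000000000000000000000000000000000000000000000000000000000000000000000000000000000000000000000000000000000000000000000000000000000000000000000000000, 0]

/-- the codes of the points -/
def pts6 : List ℕ := [1, 3, 4, 7, 9, 10, 12, 13, 16, 19, 21, 22, 25, 27, 28, 30, 31, 34, 36, 37, 39, 40, 43, 46, 48, 49, 52, 55, 57, 58, 61, 63, 64, 66, 67, 70, 73, 75, 76, 79, 81, 82, 84, 85, 88, 90, 91, 93, 94, 97, 100, 102, 103, 106, 108, 109, 111, 112, 115, 117, 118, 120, 121, 124, 127, 129, 130, 133, 136, 138, 139, 142, 144, 145, 147, 148, 151, 154, 156, 157, 160, 163, 165, 166, 169, 171, 172, 174, 175, 178, 181, 183, 184, 187, 189, 190, 192, 193, 196, 198, 199, 201, 202, 205, 208, 210, 211, 214, 217, 219, 220, 223, 225, 226, 228,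 229, 232, 235, 237, 238, 241, 243, 244, 246, 247, 250, 252, 253, 255, 256, 259, 262, 264, 265, 268, 270, 271, 273, 274, 277, 279, 280, 282, 283, 286, 289, 291, 292, 295, 298, 300, 301, 304, 306, 307, 309, 310, 313, 316, 318, 319, 322, 324, 325, 327, 328, 331, 333, 334, 336, 337, 340, 343, 345, 346, 349, 351, 352, 354, 355, 358, 360, 361, 363, 364, 367, 370, 372, 373, 376, 379, 381, 382, 385, 387, 388, 390, 391, 394, 397, 399, 400, 403, 406, 408, 409, 412, 414, 415, 417, 418, 421, 424, 426, 427, 430, 432, 433, 435, 436, 439, 441, 442, 444, 445, 448, 451, 453, 454, 457, 460, 462, 463, 466, 468, 469, 471, 472, 475, 478, 480, 481, 484, 487, 489, 490, 493, 495, 496, 498, 499, 502, 505, 507, 508, 511, 513, 514, 516, 517, 520, 522, 523, 525, 526, 529, 532, 534, 535, 538, 541, 543, 544, 547, 549, 550, 552, 553, 556, 559, 561, 562, 565, 567, 568, 570, 571, 574, 576, 577, 579, 580, 583, 586, 588, 589, 592, 594, 595, 597, 598, 601, 603, 604, 606, 607, 610, 613, 615, 616, 619, 622, 624, 625, 628,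 630, 631, 633, 634, 637, 640, 642, 643, 646, 649, 651, 652, 655, 657, 658, 660, 661, 664, 667, 669, 670, 673, 675, 676, 678, 679, 682, 684, 685, 687, 688, 691, 694, 696, 697, 700, 703, 705, 706, 709, 711, 712, 714, 715, 718, 721, 723, 724, 727]

end Pool.Agent.Lib.MP_cfac74_al.Tab
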