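import Pool.Agent.Lib.MP_cfac74_al.Tab.Plane
import Pool.Agent.Lib.MP_cfac74_al.Tab.G6.Dat
import Pool.Agent.Lib.MP_cfac74_al.Tab.G6.TL

/-!
# MP_cfac74_al : geometry 6, check of the lines
-/

set_option autoImplicit false
set_option maxRecDepth 1000000

namespace Pool.Agent.Lib.MP_cfac74_al.Tab

open Pool.Agent.Lib.MP_cfac74_al.Ch

/-- the packed offset -/
def O6l : ℕ := nat_lit 0x40000000004000000000400000000040000000004000000000400000000040000000004000000000400000000040000000004000000000400000000040000000004000000000400000000040000000004000000000400000000040000000004000000000400000000040000000004000000000400000000040000000004000000000400000000040000000004000000000400000000040000000004000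

theorem lines6 : chkT 6 Z6 TL6 (supR Z6 R6 (cdF (dgs 6 0)))
    (tot (supR Z6 R6 (cdF (dgs 6 0)))) O6l (dgs 6 0) (pts6 ++ [0]) 0 = true := by
  decide +kernel

end Pool.Agent.Lib.MP_cfac74_al.Tab
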