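import Pool.Agent.Lib.MP_cfac74_al.Tab.Fin
import Pool.Agent.Lib.MP_cfac74_al.Tab.G6.Dat

/-!
# MP_cfac74_al : geometry 6, constants
-/

set_option autoImplicit false
set_option maxRecDepth 1000000

namespace Pool.Agent.Lib.MP_cfac74_al.Tab

open Pool.Agent.Lib.MP_cfac74_al.Ch

/-- the packed offset -/
def O6 : ℕ := nat_lit 0x40000000004000000000400000000040000000004000000000400000000040000000004000000000400000000040000000004000000000400000000040000000004000000000400000000040000000004000000000400000000040000000004000000000400000000040000000004000000000400000000040000000004000000000400000000040000000004000000000400000000040000000004000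

theorem Z6_eq : Zl 6 = Z6 := by
  unfold Zl Z6
  simp [List.ofFn_succ, kf, Zp, W]

theorem R6_eq : RW A6 B6 = R6 := by decide +kernel

theorem O6_eq : Ofs = O6 := by decide +kernel

theorem A6_alt : ∀ i j, A6 i j = - A6 j i := by decide +kernel

theorem B6_alt : ∀ i j, B6 i j = - B6 j i := by decide +kernel

theorem pts6_lt : ∀ u ∈ pts6, u < 65536 := by decide +kernel

theorem pts6_len : pts6.length = 364 := by decide +kernel

end Pool.Agent.Lib.MP_cfac74_al.Tab
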