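import Pool.Agent.Lib.MP_cfac74_al.Tab.Plane
import Pool.Agent.Lib.MP_cfac74_al.Tab.G6.Dat
import Pool.Agent.Lib.MP_cfac74_al.Tab.G6.TE
import Pool.Agent.Lib.MP_cfac74_al.Tab.G6.TD

/-!
# MP_cfac74_al : geometry 6, check of the planes (part 0)
-/

set_option autoImplicit false
set_option maxRecDepth 1000000

namespace Pool.Agent.Lib.MP_cfac74_al.Tab

open Pool.Agent.Lib.MP_cfac74_al.Ch

/-- the packed offset -/
def O6e0 : ℕ := nat_lit 0x40000000004000000000400000000040000000004000000000400000000040000000004000000000400000000040000000004000000000400000000040000000004000000000400000000040000000004000000000400000000040000000004000000000400000000040000000004000000000400000000040000000004000000000400000000040000000004000000000400000000040000000004000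

/-- codes -/
def us6_0 : List ℕ := [1, 3, 4, 7, 9, 10, 12, 13, 16, 19, 21, 22, 25, 27, 28, 30, 31, 34, 36, 37, 39, 40, 43, 46, 48, 49, 52, 55, 57, 58, 61, 63, 64, 66, 67, 70, 73, 75, 76, 79, 243, 244, 246, 247, 250, 252, 253, 255, 256, 259, 262, 264, 265, 268, 270, 271, 273, 274, 277, 279, 280, 282, 283, 286, 289, 291, 292, 295, 298, 300, 301, 304, 306, 307, 309, 310, 313, 316, 318, 319, 322, 325, 328, 331, 334, 337, 340, 343, 346, 349, 352, 355, 358, 361, 364, 367, 370, 373, 376, 379, 382, 385, 388, 391, 394, 397, 400, 403, 412, 415, 421, 430, 439, 442, 448, 451, 457, 466, 469, 475, 484]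

theorem t6_0 : chkT 6 Z6 TE6 (supR Z6 R6 (cdF (dgs 6 235)))
    (tot (supR Z6 R6 (cdF (dgs 6 235)))) O6e0 (dgs 6 235) us6_0 0 = true := by
  decide +kernel

theorem d6_0 : chkD 6 (pkc pts6) 364 TD6 (dgs 6 235) us6_0 0 = true := by
  decide +kernel

theorem l6_0 : us6_0.length = 121 := by decide +kernel

/-- codes -/
def us6_1 : List ℕ := [1, 3, 4, 7, 9, 10, 12, 13, 16, 19, 21, 22, 25, 27, 28, 30, 31, 34, 36, 37, 39, 40, 43, 46, 48, 49, 52, 55, 57, 58, 61, 63, 64, 66, 67, 70, 73, 75, 76, 79, 81, 82, 84, 85, 88, 90, 91, 93, 94, 97, 100, 102, 103, 106, 108, 109, 111, 112, 115, 117, 118, 120, 121, 124, 127, 129, 130, 133, 136, 138, 139, 142, 144, 145, 147, 148, 151, 154, 156, 157, 160, 163, 165, 166, 169, 171, 172, 174, 175, 178, 181, 183, 184, 187, 189, 190, 192, 193, 196, 198, 199, 201, 202, 205, 208, 210, 211, 214, 217, 219, 220, 223, 225, 226, 228, 229, 232, 237, 238, 241]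

theorem t6_1 : chkT 6 Z6 TE6 (supR Z6 R6 (cdF (dgs 6 630)))
    (tot (supR Z6 R6 (cdF (dgs 6 630)))) O6e0 (dgs 6 630) us6_1 121 = true := by
  decide +kernel

theorem d6_1 : chkD 6 (pkc pts6) 364 TD6 (dgs 6 630) us6_1 121 = true := by
  decide +kernel

theorem l6_1 : us6_1.length = 120 := by decide +kernel

/-- codes -/
def us6_2 : List ℕ := [1, 3, 4, 7, 9, 10, 12, 13, 16, 19, 21, 22, 25, 27, 28, 30, 31, 34, 36, 37, 39, 40, 43, 46, 48, 49, 52, 55, 57, 58, 61, 63, 64, 66, 67, 70, 73, 75, 76, 79, 81, 82, 84, 85, 88, 90, 91, 93, 94, 97, 100, 102, 103, 106, 108, 109, 111, 112, 115, 117, 118, 120, 121, 124, 127, 129, 130, 133, 136, 138, 139, 142, 144, 145, 147, 148, 151, 154, 156, 157, 160, 163, 165, 166, 169, 171, 172, 174, 175, 178, 181, 183, 184, 187, 189, 190, 192, 193, 196, 199, 201, 202, 205, 208, 210, 211, 214, 217, 219, 220, 223, 225, 226, 228, 229, 232, 237, 238, 241]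

theorem t6_2 : chkT 6 Z6 TE6 (supR Z6 R6 (cdF (dgs 6 252)))
    (tot (supR Z6 R6 (cdF (dgs 6 252)))) O6e0 (dgs 6 252) us6_2 241 = true := by
  decide +kernel

theorem d6_2 : chkD 6 (pkc pts6) 364 TD6 (dgs 6 252) us6_2 241 = true := by
  decide +kernel

theorem l6_2 : us6_2.length = 119 := by decide +kernel

/-- codes -/
def us6_3 : List ℕ := [1, 3, 4, 7, 9, 10, 12, 13, 16, 19, 21, 22, 25, 27, 28, 30, 31, 34, 36, 37, 39, 40, 43, 46, 48, 49, 52, 55, 57, 58, 61, 63, 64, 66, 67, 70, 73, 75, 76, 79, 81, 82, 84, 85, 88, 90, 91, 93, 94, 97, 100, 102, 103, 106, 108, 109, 111, 112, 115, 117, 118, 120, 121, 124, 127, 129, 130, 133, 136, 138, 139, 142, 144, 145, 147, 151, 154, 156, 157, 160, 163, 165, 166, 169, 171, 172, 174, 175, 178, 181, 183, 184, 187, 189, 190, 192, 196, 198, 199, 201, 202, 205, 208, 210, 211, 214, 217, 219, 220, 223, 225, 226, 228, 229, 232, 237, 238, 241]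

theorem t6_3 : chkT 6 Z6 TE6 (supR Z6 R6 (cdF (dgs 6 697)))
    (tot (supR Z6 R6 (cdF (dgs 6 697)))) O6e0 (dgs 6 697) us6_3 360 = true := by
  decide +kernel

theorem d6_3 : chkD 6 (pkc pts6) 364 TD6 (dgs 6 697) us6_3 360 = true := by
  decide +kernel

theorem l6_3 : us6_3.length = 118 := by decide +kernel

/-- codes -/
def us6_4 : List ℕ := [1, 3, 4, 7, 9, 10, 12, 16, 19, 21, 22, 25, 27, 28, 30, 31, 34, 36, 37, 39, 40, 43, 46, 48, 49, 52, 55, 57, 58, 61, 63, 64, 66, 67, 70, 73, 75, 76, 79, 81, 82, 84, 85, 88, 90, 91, 93, 94, 97, 100, 102, 103, 106, 108, 109, 111, 112, 115, 117, 118, 120, 121, 124, 127, 129, 130, 133, 136, 138, 139, 142, 144, 145, 147, 148, 151, 154, 156, 160, 163, 165, 166, 169, 171, 172, 174, 175, 178, 181, 183, 184, 187, 189, 190, 192, 193, 196, 198, 199, 201, 205, 208, 210, 211, 214, 217, 219, 220, 223, 225, 226, 228, 229, 232, 237, 238, 241]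

theorem t6_4 : chkT 6 Z6 TE6 (supR Z6 R6 (cdF (dgs 6 382)))
    (tot (supR Z6 R6 (cdF (dgs 6 382)))) O6e0 (dgs 6 382) us6_4 478 = true := by
  decide +kernel

theorem d6_4 : chkD 6 (pkc pts6) 364 TD6 (dgs 6 382) us6_4 478 = true := by
  decide +kernel

theorem l6_4 : us6_4.length = 117 := by decide +kernel

/-- codes -/
def us6_5 : List ℕ := [1, 3, 4, 7, 9, 10, 12, 13, 16, 19, 21, 22, 25, 27, 28, 30, 31, 34, 36, 37, 39, 40, 43, 46, 48, 49, 55, 57, 58, 61, 63, 64, 66, 67, 70, 73, 75, 76, 79, 243, 244, 246, 247, 250, 253, 255, 256, 259, 262, 264, 265, 268, 270, 271, 273, 274, 277, 279, 280, 282, 286, 289, 291, 292, 295, 298, 300, 301, 304, 307, 309, 310, 313, 316, 318, 322, 324, 325, 327, 333, 334, 336, 337, 343, 345, 351, 352, 354, 360, 361, 363, 364, 370, 372, 379, 381, 387, 388, 390, 391, 397, 399, 400, 406, 415, 418, 424, 433, 442, 445, 451, 460, 469, 472, 478, 481]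

theorem t6_5 : chkT 6 Z6 TE6 (supR Z6 R6 (cdF (dgs 6 103)))
    (tot (supR Z6 R6 (cdF (dgs 6 103)))) O6e0 (dgs 6 103) us6_5 595 = true := by
  decide +kernel

theorem d6_5 : chkD 6 (pkc pts6) 364 TD6 (dgs 6 103) us6_5 595 = true := by
  decide +kernel

theorem l6_5 : us6_5.length = 116 := by decide +kernel

end Pool.Agent.Lib.MP_cfac74_al.Tab
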