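import Pool.Agent.Lib.MP_cfac74_al.Tab.Plane
import Pool.Agent.Lib.MP_cfac74_al.Tab.G6.Dat
import Pool.Agent.Lib.MP_cfac74_al.Tab.G6.TE
import Pool.Agent.Lib.MP_cfac74_al.Tab.G6.TD

/-!
# MP_cfac74_al : geometry 6, check of the planes (part 2)
-/

set_option autoImplicit false
set_option maxRecDepth 1000000

namespace Pool.Agent.Lib.MP_cfac74_al.Tab

open Pool.Agent.Lib.MP_cfac74_al.Ch

/-- the packed offset -/
def O6e2 : ℕ := nat_lit 0x40000000004000000000400000000040000000004000000000400000000040000000004000000000400000000040000000004000000000400000000040000000004000000000400000000040000000004000000000400000000040000000004000000000400000000040000000004000000000400000000040000000004000000000400000000040000000004000000000400000000040000000004000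

/-- codes -/
def us6_12 : List ℕ := [1, 3, 4, 9, 10, 12, 13, 16, 19, 22, 25, 27, 28, 30, 31, 36, 37, 40, 43, 46, 49, 52, 55, 57, 58, 61, 63, 64, 66, 67, 70, 73, 75, 76, 79, 81, 82, 84, 85, 88, 90, 91, 93, 94, 97, 100, 102, 106, 108, 109, 111, 112, 115, 117, 118, 120, 121, 124, 129, 130, 133, 136, 138, 139, 144, 145, 147, 148, 151, 154, 156, 157, 160, 163, 165, 166, 169, 171, 174, 178, 181, 183, 184, 187, 189, 190, 192, 193, 198, 199, 201, 202, 205, 208, 210, 211, 214, 217, 219, 220, 223, 225, 226, 228, 229, 232, 237, 238, 241]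

theorem t6_12 : chkT 6 Z6 TE6 (supR Z6 R6 (cdF (dgs 6 649)))
    (tot (supR Z6 R6 (cdF (dgs 6 649)))) O6e2 (dgs 6 649) us6_12 1388 = true := by
  decide +kernel

theorem d6_12 : chkD 6 (pkc pts6) 364 TD6 (dgs 6 649) us6_12 1388 = true := by
  decide +kernel

theorem l6_12 : us6_12.length = 109 := by decide +kernel

/-- codes -/
def us6_13 : List ℕ := [1, 3, 4, 7, 27, 28, 30, 31, 34, 36, 55, 58, 61, 81, 82, 84, 85, 90, 108, 109, 111, 112, 115, 117, 136, 138, 139, 142, 144, 147, 166, 169, 190, 193, 196, 217, 223, 243, 244, 246, 247, 250, 270, 271, 273, 277, 298, 300, 301, 304, 306, 309, 324, 325, 327, 331, 333, 351, 352, 354, 355, 358, 360, 379, 381, 385, 387, 390, 406, 408, 409, 412, 414, 417, 432, 433, 436, 439, 441, 460, 462, 463, 466, 468, 471, 487, 490, 493, 514, 517, 520, 541, 544, 547, 568, 571, 574, 595, 598, 601, 622, 625, 628, 652, 679, 703, 706, 709]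

theorem t6_13 : chkT 6 Z6 TE6 (supR Z6 R6 (cdF (dgs 6 12)))
    (tot (supR Z6 R6 (cdF (dgs 6 12)))) O6e2 (dgs 6 12) us6_13 1497 = true := by
  decide +kernel

theorem d6_13 : chkD 6 (pkc pts6) 364 TD6 (dgs 6 12) us6_13 1497 = true := by
  decide +kernel

theorem l6_13 : us6_13.length = 108 := by decide +kernel

/-- codes -/
def us6_14 : List ℕ := [1, 3, 4, 7, 9, 10, 13, 16, 19, 21, 22, 25, 27, 30, 34, 36, 37, 39, 40, 43, 46, 48, 49, 57, 58, 61, 63, 64, 66, 67, 73, 75, 76, 81, 82, 84, 85, 88, 90, 91, 93, 94, 97, 100, 102, 106, 108, 109, 111, 112, 115, 117, 118, 120, 121, 124, 127, 130, 133, 136, 138, 139, 142, 144, 145, 147, 148, 151, 154, 156, 157, 160, 166, 169, 171, 172, 178, 181, 183, 184, 187, 189, 190, 192, 193, 196, 198, 199, 201, 202, 205, 208, 210, 211, 214, 217, 219, 220, 223, 225, 226, 228, 229, 232, 237, 238, 241]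

theorem t6_14 : chkT 6 Z6 TE6 (supR Z6 R6 (cdF (dgs 6 354)))
    (tot (supR Z6 R6 (cdF (dgs 6 354)))) O6e2 (dgs 6 354) us6_14 1605 = true := by
  decide +kernel

theorem d6_14 : chkD 6 (pkc pts6) 364 TD6 (dgs 6 354) us6_14 1605 = true := by
  decide +kernel

theorem l6_14 : us6_14.length = 107 := by decide +kernel

/-- codes -/
def us6_15 : List ℕ := [1, 3, 4, 7, 9, 10, 13, 16, 19, 21, 22, 25, 27, 28, 30, 31, 34, 36, 37, 39, 40, 43, 46, 48, 49, 52, 55, 57, 58, 61, 63, 66, 67, 70, 73, 75, 76, 79, 81, 82, 84, 85, 88, 90, 91, 93, 94, 97, 100, 102, 106, 108, 109, 112, 115, 117, 118, 120, 121, 124, 127, 129, 130, 133, 136, 138, 139, 144, 145, 147, 148, 151, 154, 156, 157, 160, 166, 169, 171, 172, 174, 183, 184, 187, 189, 190, 192, 193, 196, 198, 199, 201, 202, 205, 208, 210, 211, 214, 217, 223, 225, 226, 228, 229, 237, 238]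

theorem t6_15 : chkT 6 Z6 TE6 (supR Z6 R6 (cdF (dgs 6 406)))
    (tot (supR Z6 R6 (cdF (dgs 6 406)))) O6e2 (dgs 6 406) us6_15 1712 = true := by
  decide +kernel

theorem d6_15 : chkD 6 (pkc pts6) 364 TD6 (dgs 6 406) us6_15 1712 = true := by
  decide +kernel

theorem l6_15 : us6_15.length = 106 := by decide +kernel

/-- codes -/
def us6_16 : List ℕ := [3, 4, 7, 9, 10, 13, 16, 21, 22, 27, 28, 30, 31, 34, 36, 37, 40, 43, 46, 48, 49, 57, 58, 61, 63, 64, 66, 67, 73, 75, 76, 79, 81, 82, 84, 85, 88, 90, 91, 93, 94, 97, 100, 102, 106, 108, 109, 111, 112, 115, 118, 120, 121, 124, 127, 129, 133, 136, 138, 139, 142, 144, 145, 148, 151, 154, 156, 157, 160, 163, 165, 166, 169, 171, 172, 174, 178, 181, 183, 184, 187, 189, 190, 193, 196, 198, 199, 201, 202, 205, 208, 210, 211, 214, 217, 219, 220, 223, 225, 226, 228, 229, 232, 237, 238]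

theorem t6_16 : chkT 6 Z6 TE6 (supR Z6 R6 (cdF (dgs 6 696)))
    (tot (supR Z6 R6 (cdF (dgs 6 696)))) O6e2 (dgs 6 696) us6_16 1818 = true := by
  decide +kernel

theorem d6_16 : chkD 6 (pkc pts6) 364 TD6 (dgs 6 696) us6_16 1818 = true := by
  decide +kernel

theorem l6_16 : us6_16.length = 105 := by decide +kernel

/-- codes -/
def us6_17 : List ℕ := [4, 7, 9, 10, 13, 19, 21, 22, 25, 27, 28, 30, 31, 34, 36, 37, 39, 40, 43, 46, 48, 52, 55, 58, 63, 64, 66, 67, 73, 75, 76, 82, 84, 85, 88, 90, 91, 93, 94, 97, 102, 106, 108, 109, 111, 112, 115, 117, 118, 120, 121, 124, 127, 129, 130, 133, 136, 138, 142, 144, 145, 147, 148, 151, 154, 156, 157, 160, 163, 165, 166, 169, 171, 172, 174, 178, 181, 183, 184, 187, 189, 190, 193, 196, 198, 199, 201, 202, 205, 208, 210, 211, 214, 217, 219, 220, 223, 225, 228, 229, 232, 237, 238, 241]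

theorem t6_17 : chkT 6 Z6 TE6 (supR Z6 R6 (cdF (dgs 6 325)))
    (tot (supR Z6 R6 (cdF (dgs 6 325)))) O6e2 (dgs 6 325) us6_17 1923 = true := by
  decide +kernel

theorem d6_17 : chkD 6 (pkc pts6) 364 TD6 (dgs 6 325) us6_17 1923 = true := by
  decide +kernel

theorem l6_17 : us6_17.length = 104 := by decide +kernel

end Pool.Agent.Lib.MP_cfac74_al.Tab
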