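import Pool.Agent.Lib.MP_cfac74_al.Tab.Plane
import Pool.Agent.Lib.MP_cfac74_al.Tab.G6.Dat
import Pool.Agent.Lib.MP_cfac74_al.Tab.G6.TE
import Pool.Agent.Lib.MP_cfac74_al.Tab.G6.TD

/-!
# MP_cfac74_al : geometry 6, check of the planes (part 3)
-/

set_option autoImplicit false
set_option maxRecDepth 1000000

namespace Pool.Agent.Lib.MP_cfac74_al.Tab

open Pool.Agent.Lib.MP_cfac74_al.Ch

/-- the packed offset -/
def O6e3 : ℕ := nat_lit 0x40000000004000000000400000000040000000004000000000400000000040000000004000000000400000000040000000004000000000400000000040000000004000000000400000000040000000004000000000400000000040000000004000000000400000000040000000004000000000400000000040000000004000000000400000000040000000004000000000400000000040000000004000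

/-- codes -/
def us6_18 : List ℕ := [1, 3, 4, 7, 9, 10, 13, 16, 19, 21, 22, 27, 28, 30, 31, 36, 37, 40, 43, 46, 48, 49, 55, 57, 58, 61, 70, 73, 75, 76, 81, 82, 84, 85, 88, 90, 91, 93, 94, 97, 100, 102, 106, 108, 109, 111, 112, 115, 117, 120, 121, 124, 127, 129, 130, 133, 136, 138, 139, 142, 145, 147, 148, 151, 154, 156, 157, 160, 165, 166, 169, 171, 172, 178, 181, 183, 184, 187, 189, 190, 192, 193, 196, 198, 199, 201, 202, 205, 208, 210, 211, 214, 217, 219, 220, 223, 225, 226, 228, 229, 232, 237, 238, 241]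

theorem t6_18 : chkT 6 Z6 TE6 (supR Z6 R6 (cdF (dgs 6 370)))
    (tot (supR Z6 R6 (cdF (dgs 6 370)))) O6e3 (dgs 6 370) us6_18 2027 = true := by
  decide +kernel

theorem d6_18 : chkD 6 (pkc pts6) 364 TD6 (dgs 6 370) us6_18 2027 = true := by
  decide +kernel

theorem l6_18 : us6_18.length = 104 := by decide +kernel

/-- codes -/
def us6_19 : List ℕ := [1, 3, 4, 7, 9, 10, 13, 16, 19, 21, 22, 25, 27, 28, 30, 31, 34, 36, 37, 39, 40, 43, 48, 52, 55, 57, 58, 61, 63, 64, 66, 67, 73, 75, 76, 79, 243, 246, 247, 250, 253, 256, 259, 262, 265, 268, 270, 273, 279, 280, 282, 283, 286, 289, 291, 292, 295, 298, 300, 304, 306, 307, 309, 310, 313, 316, 318, 319, 333, 345, 351, 360, 372, 387, 399, 426, 435, 453, 480, 487, 490, 493, 496, 499, 505, 508, 514, 517, 520, 523, 526, 529, 532, 535, 538, 541, 547, 550, 553, 556, 559, 562]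

theorem t6_19 : chkT 6 Z6 TE6 (supR Z6 R6 (cdF (dgs 6 138)))
    (tot (supR Z6 R6 (cdF (dgs 6 138)))) O6e3 (dgs 6 138) us6_19 2131 = true := by
  decide +kernel

theorem d6_19 : chkD 6 (pkc pts6) 364 TD6 (dgs 6 138) us6_19 2131 = true := by
  decide +kernel

theorem l6_19 : us6_19.length = 102 := by decide +kernel

/-- codes -/
def us6_20 : List ℕ := [3, 4, 7, 27, 28, 30, 31, 34, 36, 37, 39, 46, 82, 84, 85, 88, 91, 93, 100, 108, 109, 111, 112, 117, 118, 120, 127, 136, 139, 142, 144, 145, 147, 148, 154, 243, 244, 246, 247, 250, 253, 255, 262, 270, 271, 273, 277, 279, 282, 289, 298, 300, 301, 304, 306, 307, 309, 310, 316, 324, 327, 331, 333, 334, 343, 351, 352, 355, 358, 360, 361, 363, 379, 381, 385, 387, 388, 390, 408, 409, 412, 414, 415, 417, 418, 424, 432, 433, 435, 439, 441, 442, 444, 451, 460, 462, 463, 466, 468, 469, 471, 472, 478]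

theorem t6_20 : chkT 6 Z6 TE6 (supR Z6 R6 (cdF (dgs 6 13)))
    (tot (supR Z6 R6 (cdF (dgs 6 13)))) O6e3 (dgs 6 13) us6_20 2233 = true := by
  decide +kernel

theorem d6_20 : chkD 6 (pkc pts6) 364 TD6 (dgs 6 13) us6_20 2233 = true := by
  decide +kernel

theorem l6_20 : us6_20.length = 103 := by decide +kernel

/-- codes -/
def us6_21 : List ℕ := [1, 3, 4, 7, 9, 10, 16, 19, 22, 25, 28, 30, 34, 36, 37, 39, 40, 46, 48, 49, 52, 55, 57, 58, 61, 63, 64, 66, 67, 70, 73, 75, 76, 79, 243, 244, 246, 247, 250, 253, 255, 256, 262, 264, 265, 268, 271, 273, 277, 279, 280, 282, 283, 286, 291, 292, 295, 298, 300, 301, 304, 306, 307, 310, 313, 316, 318, 319, 322, 331, 334, 337, 340, 343, 346, 349, 352, 355, 358, 361, 364, 367, 373, 376, 379, 385, 388, 391, 394, 397, 400, 403, 424, 433, 442, 445, 451, 460, 463, 469, 478]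

theorem t6_21 : chkT 6 Z6 TE6 (supR Z6 R6 (cdF (dgs 6 229)))
    (tot (supR Z6 R6 (cdF (dgs 6 229)))) O6e3 (dgs 6 229) us6_21 2336 = true := by
  decide +kernel

theorem d6_21 : chkD 6 (pkc pts6) 364 TD6 (dgs 6 229) us6_21 2336 = true := by
  decide +kernel

theorem l6_21 : us6_21.length = 101 := by decide +kernel

/-- codes -/
def us6_22 : List ℕ := [1, 3, 4, 7, 9, 10, 16, 19, 21, 22, 25, 27, 28, 30, 31, 34, 36, 37, 39, 40, 46, 48, 49, 52, 55, 57, 58, 61, 63, 64, 66, 67, 70, 73, 75, 76, 79, 81, 82, 84, 85, 90, 97, 100, 102, 106, 108, 109, 111, 112, 115, 117, 120, 121, 124, 127, 129, 133, 136, 139, 142, 144, 145, 147, 148, 151, 154, 156, 160, 163, 166, 169, 171, 172, 174, 178, 181, 183, 184, 187, 189, 190, 192, 193, 196, 198, 199, 201, 202, 205, 210, 211, 214, 217, 223, 225, 232, 237, 238, 241]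

theorem t6_22 : chkT 6 Z6 TE6 (supR Z6 R6 (cdF (dgs 6 592)))
    (tot (supR Z6 R6 (cdF (dgs 6 592)))) O6e3 (dgs 6 592) us6_22 2437 = true := by
  decide +kernel

theorem d6_22 : chkD 6 (pkc pts6) 364 TD6 (dgs 6 592) us6_22 2437 = true := by
  decide +kernel

theorem l6_22 : us6_22.length = 100 := by decide +kernel

/-- codes -/
def us6_23 : List ℕ := [1, 3, 4, 7, 9, 10, 16, 19, 21, 22, 25, 27, 28, 30, 31, 34, 36, 37, 39, 40, 43, 46, 48, 49, 52, 55, 58, 61, 63, 64, 66, 67, 70, 76, 79, 81, 82, 85, 88, 90, 91, 93, 94, 97, 102, 106, 108, 109, 111, 112, 115, 117, 118, 120, 121, 124, 130, 139, 142, 144, 145, 147, 148, 154, 156, 157, 160, 163, 165, 166, 171, 172, 174, 178, 181, 183, 184, 189, 190, 192, 193, 196, 199, 201, 202, 205, 208, 210, 211, 217, 219, 220, 225, 226, 228, 232, 237, 238, 241]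

theorem t6_23 : chkT 6 Z6 TE6 (supR Z6 R6 (cdF (dgs 6 309)))
    (tot (supR Z6 R6 (cdF (dgs 6 309)))) O6e3 (dgs 6 309) us6_23 2537 = true := by
  decide +kernel

theorem d6_23 : chkD 6 (pkc pts6) 364 TD6 (dgs 6 309) us6_23 2537 = true := by
  decide +kernel

theorem l6_23 : us6_23.length = 99 := by decide +kernel

end Pool.Agent.Lib.MP_cfac74_al.Tab
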