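import Pool.Agent.Lib.MP_cfac74_al.Tab.G6.Cst
import Pool.Agent.Lib.MP_cfac74_al.Tab.G6.CL
import Pool.Agent.Lib.MP_cfac74_al.Tab.G6.E0
import Pool.Agent.Lib.MP_cfac74_al.Tab.G6.E1
import Pool.Agent.Lib.MP_cfac74_al.Tab.G6.E2
import Pool.Agent.Lib.MP_cfac74_al.Tab.G6.E3

/-!
# MP_cfac74_al : geometry 6, the complete table
-/

set_option autoImplicit false
set_option maxRecDepth 1000000

namespace Pool.Agent.Lib.MP_cfac74_al.Tab

open Pool.Agent.Lib.MP_cfac74_al.Ch

theorem TL6_len : TL6.length = 32 := by decide +kernel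

theorem TE6_len : TE6.length = 32 := by decide +kernel

theorem planes6 : ∀ p < 2636, ∃ b b' : Fin 6 → ZMod 3, LaneOK A6 B6 TE6 p b b' ∧
    PlOK 6 pts6 pts6.length TD6 p b b' := by
  rw [pts6_len]
  have c0 := chunk_ok (by norm_num) (by norm_num) Z6_eq R6_eq (o := O6e0) O6_eq TE6_len
    pts6_lt t6_0 d6_0
  rw [l6_0] at c0
  have c1 := chunk_ok (by norm_num) (by norm_num) Z6_eq R6_eq (o := O6e0) O6_eq TE6_len
    pts6_lt t6_1 d6_1
  rw [l6_1] at c1
  have c2 := chunk_ok (by norm_num) (by norm_num) Z6_eq R6_eq (o := O6e0) O6_eq TE6_len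
    pts6_lt t6_2 d6_2
  rw [l6_2] at c2
  have c3 := chunk_ok (by norm_num) (by norm_num) Z6_eq R6_eq (o := O6e0) O6_eq TE6_len
    pts6_lt t6_3 d6_3
  rw [l6_3] at c3
  have c4 := chunk_ok (by norm_num) (by norm_num) Z6_eq R6_eq (o := O6e0) O6_eq TE6_len
    pts6_lt t6_4 d6_4
  rw [l6_4] at c4
  have c5 := chunk_ok (by norm_num) (by norm_num) Z6_eq R6_eq (o := O6e0) O6_eq TE6_len
    pts6_lt t6_5 d6_5
  rw [l6_5] at c5
  have c6 := chunk_ok (by norm_num) (by norm_num) Z6_eq R6_eq (o := O6e1) O6_eq TE6_len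
    pts6_lt t6_6 d6_6
  rw [l6_6] at c6
  have c7 := chunk_ok (by norm_num) (by norm_num) Z6_eq R6_eq (o := O6e1) O6_eq TE6_len
    pts6_lt t6_7 d6_7
  rw [l6_7] at c7
  have c8 := chunk_ok (by norm_num) (by norm_num) Z6_eq R6_eq (o := O6e1) O6_eq TE6_len
    pts6_lt t6_8 d6_8
  rw [l6_8] at c8
  have c9 := chunk_ok (by norm_num) (by norm_num) Z6_eq R6_eq (o := O6e1) O6_eq TE6_len
    pts6_lt t6_9 d6_9
  rw [l6_9] at c9
  have c10 := chunk_ok (by norm_num) (by norm_num) Z6_eq R6_eq (o := O6e1) O6_eq TE6_len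
    pts6_lt t6_10 d6_10
  rw [l6_10] at c10
  have c11 := chunk_ok (by norm_num) (by norm_num) Z6_eq R6_eq (o := O6e1) O6_eq TE6_len
    pts6_lt t6_11 d6_11
  rw [l6_11] at c11
  have c12 := chunk_ok (by norm_num) (by norm_num) Z6_eq R6_eq (o := O6e2) O6_eq TE6_len
    pts6_lt t6_12 d6_12
  rw [l6_12] at c12
  have c13 := chunk_ok (by norm_num) (by norm_num) Z6_eq R6_eq (o := O6e2) O6_eq TE6_len
    pts6_lt t6_13 d6_13
  rw [l6_13] at c13
  have c14 := chunk_ok (by norm_num) (by norm_num) Z6_eq R6_eq (o := O6e2) O6_eq TE6_len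
    pts6_lt t6_14 d6_14
  rw [l6_14] at c14
  have c15 := chunk_ok (by norm_num) (by norm_num) Z6_eq R6_eq (o := O6e2) O6_eq TE6_len
    pts6_lt t6_15 d6_15
  rw [l6_15] at c15
  have c16 := chunk_ok (by norm_num) (by norm_num) Z6_eq R6_eq (o := O6e2) O6_eq TE6_len
    pts6_lt t6_16 d6_16
  rw [l6_16] at c16
  have c17 := chunk_ok (by norm_num) (by norm_num) Z6_eq R6_eq (o := O6e2) O6_eq TE6_len
    pts6_lt t6_17 d6_17
  rw [l6_17] at c17
  have c18 := chunk_ok (by norm_num) (by norm_num) Z6_eq R6_eq (o := O6e3) O6_eq TE6_len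
    pts6_lt t6_18 d6_18
  rw [l6_18] at c18
  have c19 := chunk_ok (by norm_num) (by norm_num) Z6_eq R6_eq (o := O6e3) O6_eq TE6_len
    pts6_lt t6_19 d6_19
  rw [l6_19] at c19
  have c20 := chunk_ok (by norm_num) (by norm_num) Z6_eq R6_eq (o := O6e3) O6_eq TE6_len
    pts6_lt t6_20 d6_20
  rw [l6_20] at c20
  have c21 := chunk_ok (by norm_num) (by norm_num) Z6_eq R6_eq (o := O6e3) O6_eq TE6_len
    pts6_lt t6_21 d6_21
  rw [l6_21] at c21
  have c22 := chunk_ok (by norm_num) (by norm_num) Z6_eq R6_eq (o := O6e3) O6_eq TE6_len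
    pts6_lt t6_22 d6_22
  rw [l6_22] at c22
  have c23 := chunk_ok (by norm_num) (by norm_num) Z6_eq R6_eq (o := O6e3) O6_eq TE6_len
    pts6_lt t6_23 d6_23
  rw [l6_23] at c23
  intro p hp
  by_cases h0 : p < 121
  · exact c0 p (by omega) (by omega)
  by_cases h1 : p < 241
  · exact c1 p (by omega) (by omega)
  by_cases h2 : p < 360
  · exact c2 p (by omega) (by omega)
  by_cases h3 : p < 478
  · exact c3 p (by omega) (by omega)
  by_cases h4 : p < 595
  · exact c4 p (by omega) (by omega)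
  by_cases h5 : p < 711
  · exact c5 p (by omega) (by omega)
  by_cases h6 : p < 827
  · exact c6 p (by omega) (by omega)
  by_cases h7 : p < 942
  · exact c7 p (by omega) (by omega)
  by_cases h8 : p < 1055
  · exact c8 p (by omega) (by omega)
  by_cases h9 : p < 1167
  · exact c9 p (by omega) (by omega)
  by_cases h10 : p < 1278
  · exact c10 p (by omega) (by omega)
  by_cases h11 : p < 1388
  · exact c11 p (by omega) (by omega)
  by_cases h12 : p < 1497
  · exact c12 p (by omega) (by omega)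
  by_cases h13 : p < 1605
  · exact c13 p (by omega) (by omega)
  by_cases h14 : p < 1712
  · exact c14 p (by omega) (by omega)
  by_cases h15 : p < 1818
  · exact c15 p (by omega) (by omega)
  by_cases h16 : p < 1923
  · exact c16 p (by omega) (by omega)
  by_cases h17 : p < 2027
  · exact c17 p (by omega) (by omega)
  by_cases h18 : p < 2131
  · exact c18 p (by omega) (by omega)
  by_cases h19 : p < 2233
  · exact c19 p (by omega) (by omega)
  by_cases h20 : p < 2336
  · exact c20 p (by omega) (by omega)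
  by_cases h21 : p < 2437
  · exact c21 p (by omega) (by omega)
  by_cases h22 : p < 2537
  · exact c22 p (by omega) (by omega)
  exact c23 p (by omega) (by omega)

/-- **the table of the geometry 6** -/
theorem geo6 : Geo A6 B6 pts6 TL6 TE6 TD6 364 2636 := by
  have h := geo_of (A := A6) (B := B6) TL6_len TE6_len
    (lines_ok (by norm_num) (by norm_num) Z6_eq R6_eq (o := O6l) O6_eq TL6_len lines6)
    planes6
  rw [pts6_len] at h
  exact h

end Pool.Agent.Lib.MP_cfac74_al.Tab
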